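import Pool.Agent.helper52.WP.SpecN

/-! # LBX: part N, everything together -/

set_option autoImplicit false

open Complex Metric Set Filter Topology MeasureTheory
open V3S (UF)
open WP

noncomputable section

namespace WPN

theorem LBX (hNLI : NLI_stmt) (hNAC : NAC_stmt) : LBX_stmt := by
  intro n C D hC hD
  exact ⟨(hNLI n C D hC hD).1, (hNLI n C D hC hD).2, hNAC n C D hC hD⟩

end WPN
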